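import Pool.Agent.H50.REL.EngQ
import Pool.Agent.H38.MSD.Mat

/-!
# Copies as contexts

`cpy D key u N`: a sample of the context `D` with `N` copies, which have the same `key`; the new
context is the old one with the values of `u` at the copies. It costs `N` times the difference of the
entropies of `u` given the old context and given the key.
-/

set_option autoImplicit false

namespace Pool.TIE38

open Finset Polynomial
open Pool.Agent.H49.Ent Pool.Agent.H32.Dense Pool.STK Pool.BFL Pool.GLB Pool.CLU Pool.REL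
open Pool.K2S (cpn)

section Copies

variable {Ω T S Y U G K : Type} [Fintype Ω] {q : Ω → ℝ}

/-- Entropy of functions of the copies. -/
theorem H_cpn' (hq : ∀ ω, 0 ≤ q ω) (z : Ω → T) (n : ℕ) (X : Fin (n + 1) → Ω → S)
    (hX : ∀ i, Det q (X i) z) :
    H (cpn q z n) (fun w => fun i => X i (w i)) = (∑ i, H q (X i)) - n * H q z := by
  classical
  have hlaw : ∀ w, 0 < cpn q z n w → law (cpn q z n) (fun w => fun i => X i (w i))
      (fun i => X i (w i)) = (∏ i, law q (X i) (X i (w i))) / law q z (z (w 0)) ^ n := by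
    intro w hw
    obtain ⟨hw1, hw2⟩ := cpn_pos hq z n w hw
    unfold law
    have h2 := Finset.prod_univ_sum (fun _ : Fin (n + 1) => (univ : Finset Ω))
      (fun j x => if X j x = X j (w j) then q x else 0)
    rw [Fintype.piFinset_univ] at h2
    rw [h2, Finset.sum_div]
    refine Finset.sum_congr rfl fun v _ => ?_
    by_cases h : ∀ i, X i (v i) = X i (w i)
    · rw [if_pos (funext h)]
      have h3 : (∏ j, if X j (v j) = X j (w j) then q (v j) else 0) = ∏ j, q (v j) :=
        Finset.prod_congr rfl fun j _ => if_pos (h j)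
      rw [h3]
      by_cases h0 : ∀ i, 0 < q (v i)
      · have hz : ∀ i, z (v i) = z (w 0) := fun i =>
          (hX i _ _ (h0 i) (hw1 i) (h i)).trans (hw2 i)
        unfold cpn
        rw [if_pos fun i => (hz i).trans (hz 0).symm, hz 0]
        rfl
      · push Not at h0
        obtain ⟨i, hi⟩ := h0
        have hi' : q (v i) = 0 := le_antisymm hi (hq _)
        have h4 : ∏ j, q (v j) = 0 := Finset.prod_eq_zero (Finset.mem_univ i) hi'
        unfold cpn
        rw [h4]
        simp
    · rw [if_neg fun hh => h fun i => congrFun hh i]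
      push Not at h
      obtain ⟨i, hi⟩ := h
      rw [Finset.prod_eq_zero (Finset.mem_univ i) (if_neg hi), zero_div]
  have hterm : ∀ w, cpn q z n w * Real.log (law (cpn q z n) (fun w => fun i => X i (w i))
      (fun i => X i (w i))) = (∑ i, cpn q z n w * Real.log (law q (X i) (X i (w i)))) -
        n * (cpn q z n w * Real.log (law q z (z (w 0)))) := by
    intro w
    by_cases h0 : cpn q z n w = 0
    · simp [h0]
    have hw : 0 < cpn q z n w := lt_of_le_of_ne (cpn_nonneg hq z n w) (Ne.symm h0)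
    obtain ⟨hw1, hw2⟩ := cpn_pos hq z n w hw
    rw [hlaw w hw, Real.log_div (Finset.prod_ne_zero_iff.mpr fun i _ =>
      (law_pos hq (X i) (hw1 i)).ne') (pow_ne_zero _ (law_pos hq z (hw1 0)).ne'),
      Real.log_prod (fun i _ => (law_pos hq (X i) (hw1 i)).ne'), Real.log_pow, ← Finset.mul_sum]
    ring
  unfold H
  rw [Finset.sum_congr rfl fun w _ => hterm w, Finset.sum_sub_distrib, Finset.sum_comm,
    ← Finset.mul_sum]
  have e1 : ∀ i : Fin (n + 1), ∑ w, cpn q z n w * Real.log (law q (X i) (X i (w i))) =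
      ∑ ω, q ω * Real.log (law q (X i) (X i ω)) := fun i =>
    (cpn_marg hq z n i).ex (fun ω => Real.log (law q (X i) (X i ω)))
  have e2 : ∑ w, cpn q z n w * Real.log (law q z (z (w 0))) =
      ∑ ω, q ω * Real.log (law q z (z ω)) :=
    (cpn_marg hq z n 0).ex (fun ω => Real.log (law q z (z ω)))
  rw [Finset.sum_congr rfl fun i _ => e1 i, e2, Finset.sum_neg_distrib]
  ring

theorem cpn_eq_tup (q : Ω → ℝ) (z : Ω → T) (n : ℕ) : cpn q z n = Pool.SLO.tup q z n := by
  funext v
  rw [Pool.SLO.tup_eq]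
  rfl

/-- **The entropy of the own data and the data of the copies.** -/
theorem cpy_H (q0 : ∀ ω, 0 ≤ q ω) (key : Ω → K) (N : ℕ) (y : Ω → Y) (u : Ω → U)
    (hy : Det q y key) : H (cpn q key N) (fun v => (y (v 0), fun i : Fin N => u (v i.succ))) =
      H q y + N * CH q u key := by
  have m0 := cpn_nonneg q0 key N
  have hpos := cpn_pos q0 key N
  obtain ⟨X, hX⟩ : ∃ X : Fin (N + 1) → Ω → Y ⊕ (U × K), X =
    Fin.cases (fun ω => Sum.inl (y ω)) (fun _ ω => Sum.inr (u ω, key ω)) := ⟨_, rfl⟩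
  have X0 : ∀ ω, X 0 ω = Sum.inl (y ω) := fun ω => by rw [hX]; rfl
  have Xs : ∀ (i : Fin N) ω, X i.succ ω = Sum.inr (u ω, key ω) := fun i ω => by rw [hX]; rfl
  have hdet : ∀ i, Det q (X i) key := by
    intro i
    refine Fin.cases ?_ (fun i => ?_) i
    · intro ω ω' h1 h2 h3
      rw [X0, X0] at h3
      exact hy ω ω' h1 h2 (Sum.inl.inj h3)
    · intro ω ω' _ _ h3
      rw [Xs, Xs] at h3
      exact (Prod.ext_iff.mp (Sum.inr.inj h3)).2
  have h1 := H_cpn' q0 key N X hdet
  rw [Fin.sum_univ_succ] at h1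
  have h2 : H q (X 0) = H q y := H_congr q0
    (fun ω ω' _ _ e => by
      show X 0 ω = X 0 ω'
      rw [X0, X0, e])
    (fun ω ω' _ _ e => by
      have e' : X 0 ω = X 0 ω' := e
      rw [X0, X0] at e'
      exact Sum.inl.inj e')
  have h3 : ∀ i : Fin N, H q (X i.succ) = H q (fun ω => (u ω, key ω)) := fun i => H_congr q0
    (fun ω ω' _ _ e => by
      show X i.succ ω = X i.succ ω'
      rw [Xs, Xs]
      exact congrArg Sum.inr e)
    (fun ω ω' _ _ e => by
      have e' : X i.succ ω = X i.succ ω' := e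
      rw [Xs, Xs] at e'
      exact Sum.inr.inj e')
  rw [h2, Finset.sum_congr rfl fun i _ => h3 i, Finset.sum_const, Finset.card_univ,
    Fintype.card_fin, nsmul_eq_mul] at h1
  have h4 : H (cpn q key N) (fun v => (y (v 0), fun i : Fin N => u (v i.succ))) =
      H (cpn q key N) (fun w => fun i => X i (w i)) := by
    refine H_congr m0 (fun v v' a b e => ?_) (fun v v' a b e => ?_)
    · have e0 : X 0 (v 0) = X 0 (v' 0) := congrFun e 0
      rw [X0, X0] at e0
      refine Prod.ext (Sum.inl.inj e0) (funext fun i => ?_)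
      have e1 : X i.succ (v i.succ) = X i.succ (v' i.succ) := congrFun e i.succ
      rw [Xs, Xs] at e1
      exact (Prod.ext_iff.mp (Sum.inr.inj e1)).1
    · obtain ⟨e1, e2⟩ := Prod.ext_iff.mp e
      funext i
      refine Fin.cases ?_ (fun i => ?_) i
      · show X 0 (v 0) = X 0 (v' 0)
        rw [X0, X0]
        exact congrArg Sum.inl e1
      · show X i.succ (v i.succ) = X i.succ (v' i.succ)
        rw [Xs, Xs]
        have e3 : key (v 0) = key (v' 0) := hy _ _ ((hpos v a).1 0) ((hpos v' b).1 0) e1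
        refine congrArg Sum.inr (Prod.ext (congrFun e2 i) ?_)
        show key (v i.succ) = key (v' i.succ)
        rw [(hpos v a).2 i.succ, (hpos v' b).2 i.succ, e3]
  rw [h4, h1]
  unfold CH
  ring

/-- An upper bound. -/
theorem cpy_le (q0 : ∀ ω, 0 ≤ q ω) (key : Ω → K) (N : ℕ) (y : Ω → Y) (u : Ω → U)
    (hy : Det q key y) : H (cpn q key N) (fun v => (y (v 0), fun i : Fin N => u (v i.succ))) ≤
      H q y + N * CH q u y := by
  have m0 := cpn_nonneg q0 key N
  have hpos := cpn_pos q0 key N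
  have h4 := Pool.H54.QF.CH_pi_le m0 (fun v : Fin (N + 1) → Ω => y (v 0)) N
    (fun v (i : Fin N) => u (v i.succ))
  have h5 : ∀ i : Fin N, CH (cpn q key N) (fun v => u (v i.succ)) (fun v => y (v 0)) =
      CH q u y := by
    intro i
    rw [← (cpn_marg q0 key N i.succ).CH u y]
    have hyy : ∀ v, 0 < cpn q key N v → y (v 0) = y (v i.succ) := fun v hv =>
      hy _ _ ((hpos v hv).1 0) ((hpos v hv).1 i.succ) ((hpos v hv).2 i.succ).symm
    refine CH_congr m0 (fun _ _ _ _ e => (Prod.ext_iff.mp e).1)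
      (fun _ _ _ _ e => (Prod.ext_iff.mp e).1) ?_ ?_
    · intro w w' a b e
      have e1 := e
      simp only at e1 ⊢
      rw [← hyy w a, ← hyy w' b]
      exact e1
    · intro w w' a b e
      have e1 := e
      simp only at e1 ⊢
      rw [hyy w a, hyy w' b]
      exact e1
  rw [Finset.sum_congr rfl fun j _ => h5 j, Finset.sum_const, Finset.card_univ,
    Fintype.card_fin, nsmul_eq_mul] at h4
  have h6 : H (cpn q key N) (fun v => (y (v 0), fun i : Fin N => u (v i.succ))) =
      H (cpn q key N) (fun v => ((fun i : Fin N => u (v i.succ)), y (v 0))) :=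
    H_congr m0 (fun _ _ _ _ e => Prod.ext (Prod.ext_iff.mp e).2 (Prod.ext_iff.mp e).1)
      (fun _ _ _ _ e => Prod.ext (Prod.ext_iff.mp e).2 (Prod.ext_iff.mp e).1)
  have h7 : H (cpn q key N) (fun v => y (v 0)) = H q y := (cpn_marg q0 key N 0).H y
  unfold CH at h4 ⊢
  rw [h6]
  rw [h7] at h4
  linarith

/-- The own data given the own data and the data of the copies. -/
theorem cpy_CH (q0 : ∀ ω, 0 ≤ q ω) (key : Ω → K) (N : ℕ) (z : Ω → S) (y : Ω → Y) (u : Ω → U)
    (hy : Det q y key) : CH (cpn q key N) (fun v => z (v 0))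
      (fun v => (y (v 0), fun i : Fin N => u (v i.succ))) = CH q z y := by
  have m0 := cpn_nonneg q0 key N
  have h1 := cpy_H q0 key N y u hy
  have h2 := cpy_H q0 key N (fun ω => (z ω, y ω)) u
    (fun ω ω' a b e => hy ω ω' a b (Prod.ext_iff.mp e).2)
  have h3 : H (cpn q key N) (fun v => ((z (v 0), y (v 0)), fun i : Fin N => u (v i.succ))) =
      H (cpn q key N) (fun v => (z (v 0), (y (v 0), fun i : Fin N => u (v i.succ)))) :=
    H_congr m0 (fun _ _ _ _ e => by
        obtain ⟨e1, e2⟩ := Prod.ext_iff.mp e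
        obtain ⟨e3, e4⟩ := Prod.ext_iff.mp e2
        exact Prod.ext (Prod.ext e1 e3) e4)
      (fun _ _ _ _ e => by
        obtain ⟨e1, e2⟩ := Prod.ext_iff.mp e
        obtain ⟨e3, e4⟩ := Prod.ext_iff.mp e1
        exact Prod.ext e3 (Prod.ext e4 e2))
  unfold CH at h1 h2 ⊢
  rw [← h3, h2, h1]
  ring

/-- **The own position stays full.** -/
theorem cpy_full (q0 : ∀ ω, 0 ≤ q ω) (key : Ω → K) (N : ℕ) (z : Ω → S) (y : Ω → Y) (x : Ω → G)
    (u : Ω → U) (hx : Det q key x) (hz : Det q (fun ω => (z ω, (y ω, x ω))) key) :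
    CH q z (fun ω => (y ω, x ω)) - N * (CH q u x - CH q u key) ≤
      CH (cpn q key N) (fun v => z (v 0))
        (fun v => (y (v 0), (x (v 0), fun i : Fin N => u (v i.succ)))) := by
  have m0 := cpn_nonneg q0 key N
  have h1 := cpy_H q0 key N (fun ω => (z ω, (y ω, x ω))) u hz
  have h2 := cpy_le q0 key N x u hx
  have h3 : H (cpn q key N) (fun v => ((z (v 0), (y (v 0), x (v 0))),
      fun i : Fin N => u (v i.succ))) = H (cpn q key N) (fun v => (z (v 0),
        (y (v 0), (x (v 0), fun i : Fin N => u (v i.succ))))) :=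
    H_congr m0 (fun _ _ _ _ e => by
        obtain ⟨e1, e2⟩ := Prod.ext_iff.mp e
        obtain ⟨e3, e4⟩ := Prod.ext_iff.mp e2
        obtain ⟨e5, e6⟩ := Prod.ext_iff.mp e4
        exact Prod.ext (Prod.ext e1 (Prod.ext e3 e5)) e6)
      (fun _ _ _ _ e => by
        obtain ⟨e1, e2⟩ := Prod.ext_iff.mp e
        obtain ⟨e3, e4⟩ := Prod.ext_iff.mp e1
        obtain ⟨e5, e6⟩ := Prod.ext_iff.mp e4
        exact Prod.ext e3 (Prod.ext e5 (Prod.ext e6 e2)))
  have h4 : H (cpn q key N) (fun v => (y (v 0), (x (v 0), fun i : Fin N => u (v i.succ)))) ≤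
      CH q y x + (H q x + N * CH q u x) := by
    have h5 : CH (cpn q key N) (fun v => y (v 0)) (fun v => (x (v 0), fun i : Fin N =>
        u (v i.succ))) ≤ CH (cpn q key N) (fun v => y (v 0)) (fun v => x (v 0)) :=
      CH_mono_cond m0 fun _ _ _ _ e => (Prod.ext_iff.mp e).1
    have h6 : CH (cpn q key N) (fun v => y (v 0)) (fun v => x (v 0)) = CH q y x :=
      (cpn_marg q0 key N 0).CH y x
    rw [h6] at h5
    have h7 : CH (cpn q key N) (fun v => y (v 0)) (fun v => (x (v 0), fun i : Fin N =>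
        u (v i.succ))) = H (cpn q key N) (fun v => (y (v 0), (x (v 0), fun i : Fin N =>
          u (v i.succ)))) - H (cpn q key N) (fun v => (x (v 0), fun i : Fin N =>
          u (v i.succ))) := rfl
    rw [h7] at h5
    linarith
  unfold CH at h1 h2 h4 ⊢
  rw [← h3, h1]
  linarith

end Copies

section Contexts

variable {h m c : ℕ} {B : Bd h m c} {θ : ℝ}

/-- A context without other samples. -/
noncomputable def ofFn (hB : B.Ok) {Y : Type} (y : B.Ω → Y) (hb : Det B.p y B.b)
    (ht : Det B.p y B.th) (hi : CH B.p B.L B.b - CH B.p B.L y ≤ θ) : Ctx B θ where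
  W := B.Ω
  ft := inferInstance
  q := B.p
  isLaw := hB.isLaw
  pr := fun ω => ω
  mg := Marg.id B.p
  G := Y
  x := y
  x_b := hb
  x_t := ht
  inf := hi

/-- **The context with copies.** -/
noncomputable def cpy (D : Ctx B θ) {K U : Type} (key : D.W → K) (u : D.W → U) (N : ℕ)
    (hx : Det D.q key D.x) (hL : Det D.q (fun w => (B.L (D.pr w), D.x w)) key) {θu : ℝ}
    (hu : CH D.q u D.x - CH D.q u key ≤ θu) : Ctx B (θ + N * θu) where
  W := Fin (N + 1) → D.W
  ft := inferInstance
  q := cpn D.q key N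
  isLaw := cpn_law D.isLaw _ N
  pr := fun v => D.pr (v 0)
  mg := (cpn_marg D.isLaw.nonneg _ N 0).comp D.mg
  G := D.G × (Fin N → U)
  x := fun v => (D.x (v 0), fun i => u (v i.succ))
  x_b := by
    intro w w' h1 h2 h3
    exact D.x_b _ _ ((cpn_pos D.isLaw.nonneg _ N w h1).1 0)
      ((cpn_pos D.isLaw.nonneg _ N w' h2).1 0) (Prod.ext_iff.mp h3).1
  x_t := by
    intro w w' h1 h2 h3
    exact D.x_t _ _ ((cpn_pos D.isLaw.nonneg _ N w h1).1 0)
      ((cpn_pos D.isLaw.nonneg _ N w' h2).1 0) (Prod.ext_iff.mp h3).1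
  inf := by
    have n0 := D.isLaw.nonneg
    have m0 := cpn_nonneg n0 key N
    have h1 := cpy_H n0 key N (fun w => (B.L (D.pr w), D.x w)) u hL
    have h2 := cpy_le n0 key N D.x u hx
    have h3 : CH (cpn D.q key N) (fun v => B.L (D.pr (v 0))) (fun v => B.b (D.pr (v 0))) =
        CH D.q (fun w => B.L (D.pr w)) (fun w => B.b (D.pr w)) :=
      (cpn_marg n0 key N 0).CH (fun w => B.L (D.pr w)) (fun w => B.b (D.pr w))
    have h4 : H (cpn D.q key N) (fun v => ((B.L (D.pr (v 0)), D.x (v 0)),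
        fun i : Fin N => u (v i.succ))) = H (cpn D.q key N) (fun v => (B.L (D.pr (v 0)),
          (D.x (v 0), fun i : Fin N => u (v i.succ)))) :=
      H_congr m0 (fun _ _ _ _ e => by
          obtain ⟨e1, e2⟩ := Prod.ext_iff.mp e
          obtain ⟨e3, e4⟩ := Prod.ext_iff.mp e2
          exact Prod.ext (Prod.ext e1 e3) e4)
        (fun _ _ _ _ e => by
          obtain ⟨e1, e2⟩ := Prod.ext_iff.mp e
          obtain ⟨e3, e4⟩ := Prod.ext_iff.mp e1
          exact Prod.ext e3 (Prod.ext e4 e2))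
    have h5 := D.inf
    rw [h3]
    have h6 : (N : ℝ) * (CH D.q u D.x - CH D.q u key) ≤ N * θu :=
      mul_le_mul_of_nonneg_left hu (Nat.cast_nonneg N)
    unfold CH at h1 h2 h5 h6 ⊢
    rw [← h4, h1]
    linarith

/-- **Exchange**: the copy in the place of the own sample. -/
theorem cpy_exch (D : Ctx B θ) {K U : Type} (key : D.W → K) (u : D.W → U) (N : ℕ)
    (hx : Det D.q key D.x) (i : Fin N) (E : D.G → K → U → Prop) :
    Pb (cpn D.q key N) (fun v => E (D.x (v 0)) (key (v 0)) (u (v i.succ))) =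
      Pb D.q (fun w => E (D.x w) (key w) (u w)) := by
  have n0 := D.isLaw.nonneg
  have m0 := cpn_nonneg n0 key N
  have hpos := cpn_pos n0 key N
  rw [← Pool.MIC.Marg.Pb_eq (cpn_marg n0 key N i.succ)]
  have hk : ∀ v, 0 < cpn D.q key N v → key (v i.succ) = key (v 0) := fun v hv =>
    (hpos v hv).2 i.succ
  have hxx : ∀ v, 0 < cpn D.q key N v → D.x (v i.succ) = D.x (v 0) := fun v hv =>
    hx _ _ ((hpos v hv).1 i.succ) ((hpos v hv).1 0) (hk v hv)
  refine le_antisymm (Pool.MIC.Pb_le_of_imp m0 fun v hv hE => ?_)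
    (Pool.MIC.Pb_le_of_imp m0 fun v hv hE => ?_)
  · rw [hk v hv, hxx v hv]
    exact hE
  · rw [← hk v hv, ← hxx v hv]
    exact hE

end Contexts

end Pool.TIE38
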