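import Pool.Agent.H50.REL.EngQ

/-!
# Combinations of the family, visible family, from a bound for unit vectors off the pivots

`UB D P s τ₁ τ₂ ρn`: a unit vector off the pivots, function of the context, is a relation together
with the family with probability at most `ρn`.
-/

set_option autoImplicit false

namespace Pool.TIE38

open Finset Polynomial
open Pool.Agent.H49.Ent Pool.Agent.H32.Dense Pool.STK Pool.BFL Pool.GLB Pool.CLU Pool.REL
open Pool.K2S (cpn)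

section

variable {h m c : ℕ} {NN : Finset (Fin h →₀ ℕ)} {B : Bd h m c} {θ : ℝ}

/-- Unit vectors off the pivots are no relations. -/
def UB (D : Ctx B θ) (a : Fin c → {γ // γ ∈ NN} → Fin m → ℝ[X]) (C₀ τ₀ : ℝ) (P : Finset (Fin m))
    (s : D.G → Fin m → Fin m → ℝ) (τ₁ τ₂ ρn : ℝ) : Prop :=
  ∀ d : D.G → Fin m → ℝ, VecR 1 Pᶜ d → Pb D.q (fun w => D.GpR a C₀ τ₀ τ₁ P s w ∧
    (∃ β, |d (D.x w) β| = 1) ∧ ∀ l, |B.ev a (D.pr w) (d (D.x w)) l| ≤ τ₂) ≤ ρn

/-- **Every relation is a combination of the family.** -/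
theorem spanU (D : Ctx B θ) {a : Fin c → {γ // γ ∈ NN} → Fin m → ℝ[X]}
    {C₀ τ₀ R ρn : ℝ} {P : Finset (Fin m)}
    {s : D.G → Fin m → Fin m → ℝ} {t : D.G → Fin m → ℝ} (hs : VecF R P s)
    {τ₁ τ₂ δ Q : ℝ} (hδ : 0 < δ) (hτ1 : 0 ≤ τ₁)
    (hU : UB D a C₀ τ₀ P s τ₁ ((τ₂ + m * (Q * τ₁)) / δ) ρn) :
    Pb D.q (fun w => D.GpR a C₀ τ₀ τ₁ P s w ∧ (∀ α, |t (D.x w) α| ≤ Q) ∧
      (∀ l, |B.ev a (D.pr w) (t (D.x w)) l| ≤ τ₂) ∧
      ∃ β, δ < |rest P s t (D.x w) β|) ≤ ρn := by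
  classical
  have n0 := D.isLaw.nonneg
  obtain ⟨d, hd⟩ : ∃ d : D.G → Fin m → ℝ, d = fun y =>
    if (∀ π ∈ P, s y π π = 1) ∧ 0 < ‖rest P s t y‖ then
    ‖rest P s t y‖⁻¹ • rest P s t y else 0 := ⟨_, rfl⟩
  have hdv : VecR 1 Pᶜ d := by
    refine ⟨fun y α => ?_, fun y α hα => ?_⟩
    · rw [hd]
      simp only
      split_ifs with hc
      · rw [Pi.smul_apply, smul_eq_mul, abs_mul, abs_of_nonneg (inv_nonneg.2 (norm_nonneg _)),
          inv_mul_le_iff₀ hc.2, mul_one]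
        exact norm_le_pi_norm (rest P s t y) α
      · rw [Pi.zero_apply, abs_zero]
        exact zero_le_one
    · have hα' : α ∈ P := by simpa using hα
      rw [hd]
      simp only
      split_ifs with hc
      · have h1 : rest P s t y α = 0 := by
          unfold rest
          rw [Pi.sub_apply, Finset.sum_apply, Finset.sum_eq_single α]
          · rw [Pi.smul_apply, smul_eq_mul, hc.1 α hα', mul_one, sub_self]
          · intro π hπ hne
            rw [Pi.smul_apply, hs.2 y π hπ α hα' hne.symm, smul_zero]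
          · intro hh
            exact absurd hα' hh
        rw [Pi.smul_apply, h1, smul_zero]
      · rfl
  refine le_trans ?_ (hU d hdv)
  refine Pool.MIC.Pb_le_of_imp n0 fun w _ hw => ?_
  obtain ⟨g1, g2, g3, β, g6⟩ := hw
  have hn : δ < ‖rest P s t (D.x w)‖ :=
    lt_of_lt_of_le g6 (norm_le_pi_norm (rest P s t (D.x w)) β)
  have hn0 : 0 < ‖rest P s t (D.x w)‖ := hδ.trans hn
  have hc : (∀ π ∈ P, s (D.x w) π π = 1) ∧ 0 < ‖rest P s t (D.x w)‖ :=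
    ⟨fun π hπ => (g1.2 π hπ).1, hn0⟩
  have hdw : d (D.x w) = ‖rest P s t (D.x w)‖⁻¹ • rest P s t (D.x w) := by
    rw [hd]
    exact if_pos hc
  have hQ0 : 0 ≤ Q := (abs_nonneg _).trans (g2 β)
  refine ⟨g1, ?_, fun l => ?_⟩
  · have hne : Nonempty (Fin m) := ⟨β⟩
    obtain ⟨i, -, hi⟩ := Finset.exists_max_image (univ : Finset (Fin m))
      (fun i => ‖(rest P s t (D.x w)) i‖) Finset.univ_nonempty
    have h7 : ‖rest P s t (D.x w)‖ = ‖(rest P s t (D.x w)) i‖ := by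
      refine le_antisymm ((pi_norm_le_iff_of_nonneg (norm_nonneg _)).2 fun j =>
        hi j (Finset.mem_univ j)) (norm_le_pi_norm _ i)
    refine ⟨i, ?_⟩
    rw [hdw, Pi.smul_apply, smul_eq_mul, abs_mul,
      abs_of_nonneg (inv_nonneg.2 hn0.le), ← Real.norm_eq_abs, ← h7, inv_mul_cancel₀ hn0.ne']
  · have h8 : |B.ev a (D.pr w) (rest P s t (D.x w)) l| ≤ τ₂ + m * (Q * τ₁) := by
      have h9 : B.ev a (D.pr w) (∑ π ∈ P, t (D.x w) π • s (D.x w) π) l =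
          ∑ π ∈ P, t (D.x w) π * B.ev a (D.pr w) (s (D.x w) π) l := by
        rw [B.ev_sum]
        have e1 : ∀ α ∈ (univ : Finset (Fin m)),
            (∑ π ∈ P, t (D.x w) π • s (D.x w) π) α * B.ev a (D.pr w) (Pi.single α 1) l =
            ∑ π ∈ P, t (D.x w) π * (s (D.x w) π α * B.ev a (D.pr w) (Pi.single α 1) l) := by
          intro α _
          rw [Finset.sum_apply, Finset.sum_mul]
          refine Finset.sum_congr rfl fun π _ => ?_
          rw [Pi.smul_apply, smul_eq_mul]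
          ring
        rw [Finset.sum_congr rfl e1, Finset.sum_comm]
        refine Finset.sum_congr rfl fun π _ => ?_
        rw [← Finset.mul_sum, B.ev_sum a (D.pr w) (s (D.x w) π) l]
      unfold rest
      rw [B.ev_sub, h9]
      refine (abs_sub _ _).trans (add_le_add (g3 l) ?_)
      refine (Finset.abs_sum_le_sum_abs _ _).trans ?_
      have h10 : ∀ π ∈ P, |t (D.x w) π * B.ev a (D.pr w) (s (D.x w) π) l| ≤ Q * τ₁ := by
        intro π hπ
        rw [abs_mul]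
        exact mul_le_mul (g2 π) ((g1.2 π hπ).2 l) (abs_nonneg _) hQ0
      refine (Finset.sum_le_sum h10).trans ?_
      rw [Finset.sum_const, nsmul_eq_mul]
      refine mul_le_mul_of_nonneg_right ?_ (mul_nonneg hQ0 hτ1)
      have h12 : P.card ≤ m := by
        have := Finset.card_le_univ P
        rwa [Fintype.card_fin] at this
      exact_mod_cast h12
    rw [hdw, B.ev_smul, abs_mul, abs_of_nonneg (inv_nonneg.2 hn0.le), inv_mul_le_iff₀ hn0]
    have h9 : δ * ((τ₂ + m * (Q * τ₁)) / δ) = τ₂ + m * (Q * τ₁) := mul_div_cancel₀ _ hδ.ne'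
    have h10 := mul_le_mul_of_nonneg_right hn.le
      (div_nonneg ((abs_nonneg _).trans h8) hδ.le)
    linarith

/-- **The family is a function of the exact point.** -/
theorem visU (D : Ctx B θ) (hB : B.Ok) {a : Fin c → {γ // γ ∈ NN} → Fin m → ℝ[X]}
    {C₀ τ₀ τ δ R ρn : ℝ} {P : Finset (Fin m)}
    {s : D.G → Fin m → Fin m → ℝ} (hs : VecF R P s) (hδ : 0 < δ) (hρn : 0 ≤ ρn) (hτ1 : 0 ≤ τ)
    (hU : UB (D.gl D hB) a C₀ τ₀ P (fun y => s y.1) τ
      ((τ + 2 * m * (R * τ₀) + m * (R * τ)) / δ) ρn) :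
    ∃ sv : B.Ξ → Fin m → Fin m → ℝ, VecF R P sv ∧
      Pb D.q (fun w => D.GpR a C₀ τ₀ τ P s w ∧
        ¬ ((∀ π ∈ P, sv (B.pt (D.pr w)) π π = 1) ∧
          ∀ π ∈ P, ∀ β, |s (D.x w) π β - sv (B.pt (D.pr w)) π β| ≤ δ)) ≤
        Real.sqrt (m * ρn) := by
  classical
  have n0 := D.isLaw.nonneg
  obtain ⟨E, hE⟩ : ∃ E : Fin m → D.W × D.W → Prop, E = fun π w =>
    D.GpR a C₀ τ₀ τ P s w.1 ∧ D.GpR a C₀ τ₀ τ P s w.2 ∧ π ∈ P ∧
      ∃ β, δ < |s (D.x w.1) π β - s (D.x w.2) π β| := ⟨_, rfl⟩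
  have h2 : ∀ π ∈ (univ : Finset (Fin m)),
      Pb (glue D.q D.q (fun w => B.pt (D.pr w)) (fun w => B.pt (D.pr w))) (E π) ≤ ρn := by
    intro π _
    by_cases hπ : π ∈ P
    · have h1 := spanU (D.gl D hB) (a := a) (C₀ := C₀) (τ₀ := τ₀) (P := P)
        (R := R) (s := fun y => s y.1) (t := fun y => s y.2 π)
        ⟨fun y π α => hs.1 _ _ _, fun y π hπ α hα hne => hs.2 _ _ hπ _ hα hne⟩
        (τ₁ := τ) (τ₂ := τ + 2 * m * (R * τ₀)) (δ := δ) (Q := R) hδ hτ1 hU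
      refine le_trans ?_ h1
      refine Pool.MIC.Pb_le_of_imp (D.gl D hB).isLaw.nonneg fun w hw hh => ?_
      rw [hE] at hh
      obtain ⟨g1, g2, -, β, g3⟩ := hh
      have hpos : 0 < D.q w.1 ∧ 0 < D.q w.2 ∧ B.pt (D.pr w.1) = B.pt (D.pr w.2) :=
        (glue_pos_iff (Z₁ := fun w => B.pt (D.pr w)) (Z₂ := fun w => B.pt (D.pr w)) n0 n0
          w).1 hw
      refine ⟨g1, fun α => hs.1 _ _ _, fun l => ?_, β, ?_⟩
      · exact B.ev_near g1.1 g2.1 hpos.2.2 (fun α => hs.1 _ _ _) ((g2.2 π hπ).2 l)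
      · have e1 : s (D.x w.2) π - ∑ π' ∈ P, s (D.x w.2) π π' • s (D.x w.1) π' =
            s (D.x w.2) π - s (D.x w.1) π :=
          rest_one hπ (g2.2 π hπ).1 fun π' hπ' hne => hs.2 _ π hπ π' hπ' hne
        show δ < |(s (D.x w.2) π - ∑ π' ∈ P, s (D.x w.2) π π' • s (D.x w.1) π') β|
        rw [e1, Pi.sub_apply, abs_sub_comm]
        exact g3
    · refine le_trans (le_of_eq ?_) hρn
      unfold Pb
      refine Finset.sum_eq_zero fun w _ => ?_
      rw [if_neg]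
      rw [hE]
      exact fun hh => hπ hh.2.2.1
  have h3 : Pb (glue D.q D.q (fun w => B.pt (D.pr w)) (fun w => B.pt (D.pr w)))
      (fun w => D.GpR a C₀ τ₀ τ P s w.1 ∧ D.GpR a C₀ τ₀ τ P s w.2 ∧
        ∃ π ∈ P, ∃ β, δ < |s (D.x w.1) π β - s (D.x w.2) π β|) ≤ m * ρn := by
    have g0 : ∀ w, 0 ≤ glue D.q D.q (fun w => B.pt (D.pr w)) (fun w => B.pt (D.pr w)) w :=
      glue_nonneg n0 n0
    refine le_trans (Pool.MIC.Pb_le_of_imp g0 fun w _ hh => ?_)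
      ((Pool.MIC.Pb_exists_le g0 E).trans ((Finset.sum_le_sum h2).trans (le_of_eq ?_)))
    · obtain ⟨g1, g2, π, hπ, β, g3⟩ := hh
      refine ⟨π, ?_⟩
      rw [hE]
      exact ⟨g1, g2, hπ, β, g3⟩
    · rw [Finset.sum_const, Finset.card_univ, Fintype.card_fin, nsmul_eq_mul]
  obtain ⟨x, hx⟩ := best D.isLaw (fun w => B.pt (D.pr w)) (D.GpR a C₀ τ₀ τ P s)
    (fun w w' => ∃ π ∈ P, ∃ β, δ < |s (D.x w) π β - s (D.x w') π β|) h3
  refine ⟨fun z => s (D.x (x z)), ⟨fun y π α => hs.1 _ _ _,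
    fun y π hπ α hα hne => hs.2 _ _ hπ _ hα hne⟩, le_trans ?_ hx⟩
  refine Pool.MIC.Pb_le_of_imp n0 fun w _ hw => ⟨hw.1, fun hh => hw.2 ?_⟩
  obtain ⟨g1, g2, g3, g4⟩ := hh
  refine ⟨fun π hπ => (g3.2 π hπ).1, fun π hπ β => ?_⟩
  by_contra hc
  push Not at hc
  exact g4 ⟨π, hπ, β, hc⟩

end

end Pool.TIE38
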