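import Pool.Agent.H38.TIE.Mct
import Pool.Agent.H38.TIE.Spu

/-!
# Events in keys, popular points, exchange in a glued context, numbers
-/

set_option autoImplicit false

namespace Pool.TIE38

open Finset Polynomial
open Pool.Agent.H49.Ent Pool.Agent.H32.Dense Pool.STK Pool.BFL Pool.GLB Pool.CLU Pool.REL
open Pool.K2S (cpn)

section Bits

variable {Ω S T : Type} [Fintype Ω] {p : Ω → ℝ}

/-- An event has one bit. -/
theorem CH_prop_le (hp : IsLaw p) (G : Ω → Prop) (Y : Ω → T) : CH p G Y ≤ Real.log 2 := by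
  classical
  have h1 := CH_le_card hp.nonneg hp.sum_one G Y (fun _ => {True, False}) (fun ω _ => by
    by_cases h : G ω
    · have : G ω = True := eq_true h
      rw [this]
      simp
    · have : G ω = False := eq_false h
      rw [this]
      simp)
  refine h1.trans (le_of_eq ?_)
  have h2 : (({True, False} : Finset Prop).card : ℝ) = 2 := by
    rw [Finset.card_pair (by simp)]
    norm_num
  rw [h2]
  exact Ex_const hp.sum_one _

/-- An event in the condition costs one bit. -/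
theorem CH_ev (hp : IsLaw p) (X : Ω → S) (Y : Ω → T) (G : Ω → Prop) :
    CH p X Y - Real.log 2 ≤ CH p X (fun ω => (Y ω, G ω)) := by
  have h1 := CH_le_add hp.nonneg X G Y
  have h2 := CH_prop_le hp G Y
  have h3 : CH p X (fun ω => (G ω, Y ω)) = CH p X (fun ω => (Y ω, G ω)) :=
    le_antisymm
      (CH_mono_cond hp.nonneg fun _ _ _ _ e => Prod.ext (Prod.ext_iff.mp e).2 (Prod.ext_iff.mp e).1)
      (CH_mono_cond hp.nonneg fun _ _ _ _ e => Prod.ext (Prod.ext_iff.mp e).2 (Prod.ext_iff.mp e).1)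
  rw [h3] at h1
  linarith

end Bits

section Popular

variable {Ω₁ Ω₂ Z : Type} [Fintype Ω₁] [Fintype Ω₂] {p₁ : Ω₁ → ℝ} {p₂ : Ω₂ → ℝ}

open Classical in
/-- The event `E` has probability at least `r` over the point `z`. -/
def Pop (p₂ : Ω₂ → ℝ) (Z₂ : Ω₂ → Z) (E : Ω₂ → Prop) (r : ℝ) (z : Z) : Prop :=
  r * law p₂ Z₂ z ≤ ∑ w, if Z₂ w = z ∧ E w then p₂ w else 0

/-- The event over unpopular points. -/
theorem pop_le (hp : IsLaw p₂) (Z₂ : Ω₂ → Z) (E : Ω₂ → Prop) {r : ℝ} (hr : 0 ≤ r) :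
    Pb p₂ (fun w => E w ∧ ¬ Pop p₂ Z₂ E r (Z₂ w)) ≤ r := by
  classical
  have h0 : Pb p₂ (fun w => E w ∧ ¬ Pop p₂ Z₂ E r (Z₂ w)) =
      ∑ z ∈ univ.image Z₂, ∑ w ∈ univ.filter (fun w => Z₂ w = z),
        (if E w ∧ ¬ Pop p₂ Z₂ E r (Z₂ w) then p₂ w else 0) := by
    rw [Finset.sum_fiberwise_of_maps_to (fun w _ => Finset.mem_image_of_mem Z₂ (Finset.mem_univ w))]
    unfold Pb
    refine Finset.sum_congr rfl fun w _ => ?_
    by_cases h5 : E w ∧ ¬ Pop p₂ Z₂ E r (Z₂ w)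
    · rw [if_pos h5, if_pos h5]
    · rw [if_neg h5, if_neg h5]
  have h1 : ∀ z ∈ univ.image Z₂, ∑ w ∈ univ.filter (fun w => Z₂ w = z),
      (if E w ∧ ¬ Pop p₂ Z₂ E r (Z₂ w) then p₂ w else 0) ≤ r * law p₂ Z₂ z := by
    intro z _
    by_cases hz : Pop p₂ Z₂ E r z
    · refine le_trans (le_of_eq (Finset.sum_eq_zero fun w hw => ?_))
        (mul_nonneg hr (law_nonneg hp.nonneg _ _))
      rw [Finset.mem_filter] at hw
      rw [if_neg]
      rintro ⟨-, h2⟩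
      rw [hw.2] at h2
      exact h2 hz
    · unfold Pop at hz
      push Not at hz
      refine le_trans (le_of_eq ?_) hz.le
      rw [Finset.sum_filter]
      refine Finset.sum_congr rfl fun w _ => ?_
      by_cases h2 : Z₂ w = z
      · rw [if_pos h2]
        by_cases h3 : E w
        · have h4 : ¬ Pop p₂ Z₂ E r (Z₂ w) := by
            rw [h2]
            unfold Pop
            exact not_le.2 hz
          rw [if_pos ⟨h3, h4⟩, if_pos ⟨h2, h3⟩]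
        · rw [if_neg (fun hh => h3 hh.1), if_neg (fun hh => h3 hh.2)]
      · rw [if_neg h2, if_neg (fun hh => h2 hh.1)]
  rw [h0]
  refine (Finset.sum_le_sum h1).trans ?_
  rw [← Finset.mul_sum]
  have h2 : ∑ z ∈ univ.image Z₂, law p₂ Z₂ z = 1 := by
    rw [sum_law, hp.sum_one]
  rw [h2, mul_one]

/-- Both events over popular points. -/
theorem pop_glue (h₁ : ∀ ω, 0 ≤ p₁ ω) (h₂ : ∀ ω, 0 ≤ p₂ ω) {Z₁ : Ω₁ → Z} {Z₂ : Ω₂ → Z}
    (hZ : ∀ z, law p₁ Z₁ z = law p₂ Z₂ z) (A : Ω₁ → Prop) (E : Ω₂ → Prop) {r : ℝ}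
    (hA : ∀ ω, A ω → Pop p₂ Z₂ E r (Z₁ ω)) :
    r * Pb p₁ A ≤ Pb (glue p₁ p₂ Z₁ Z₂) (fun w => A w.1 ∧ E w.2) := by
  classical
  obtain ⟨F, hF⟩ : ∃ F : Ω₁ × Ω₂ → Prop, F = fun w => A w.1 ∧ E w.2 := ⟨_, rfl⟩
  rw [← hF]
  unfold Pb
  rw [Fintype.sum_prod_type, Finset.mul_sum]
  refine Finset.sum_le_sum fun ω _ => ?_
  by_cases hω : A ω
  · rw [if_pos hω]
    rcases (h₁ ω).eq_or_lt with h0 | h0
    · rw [← h0, mul_zero]
      refine Finset.sum_nonneg fun w _ => ?_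
      split_ifs
      · exact glue_nonneg h₁ h₂ _
      · exact le_rfl
    · have hl : 0 < law p₁ Z₁ (Z₁ ω) := law_pos h₁ Z₁ h0
      have h3 := hA ω hω
      unfold Pop at h3
      have h4 : ∀ w, p₁ ω / law p₁ Z₁ (Z₁ ω) * (if Z₂ w = Z₁ ω ∧ E w then p₂ w else 0) ≤
          (if F (ω, w) then glue p₁ p₂ Z₁ Z₂ (ω, w) else 0) := by
        intro w
        by_cases h5 : E w
        · have h7 : F (ω, w) := by
            rw [hF]
            exact ⟨hω, h5⟩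
          rw [if_pos h7]
          unfold Pool.Agent.H49.Ent.glue
          simp only
          by_cases h6 : Z₁ ω = Z₂ w
          · rw [if_pos h6, if_pos ⟨h6.symm, h5⟩]
            refine le_of_eq ?_
            ring
          · rw [if_neg h6, if_neg (fun hh => h6 hh.1.symm), mul_zero]
        · rw [if_neg (fun hh => h5 hh.2), mul_zero]
          split_ifs
          · exact glue_nonneg h₁ h₂ _
          · exact le_rfl
      refine le_trans ?_ (Finset.sum_le_sum fun w _ => h4 w)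
      rw [← Finset.mul_sum]
      rw [← hZ] at h3
      have h5 := mul_le_mul_of_nonneg_left h3 (div_pos h0 hl).le
      refine le_trans (le_of_eq ?_) h5
      field_simp
  · rw [if_neg hω, mul_zero]
    refine Finset.sum_nonneg fun w _ => ?_
    split_ifs
    · exact glue_nonneg h₁ h₂ _
    · exact le_rfl

omit [Fintype Ω₂] in
/-- The gluing depends on the values at positive samples only. -/
theorem glue_congr (h₁ : ∀ ω, 0 ≤ p₁ ω) {Z₁ Z₁' : Ω₁ → Z} {Z₂ : Ω₂ → Z}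
    (h : ∀ ω, 0 < p₁ ω → Z₁ ω = Z₁' ω) : glue p₁ p₂ Z₁ Z₂ = glue p₁ p₂ Z₁' Z₂ := by
  classical
  funext w
  have hl : ∀ z, law p₁ Z₁ z = law p₁ Z₁' z := by
    intro z
    unfold law
    refine Finset.sum_congr rfl fun ω _ => ?_
    rcases (h₁ ω).eq_or_lt with h0 | h0
    · rw [← h0]
      split_ifs <;> rfl
    · rw [h ω h0]
  unfold Pool.Agent.H49.Ent.glue
  rcases (h₁ w.1).eq_or_lt with h0 | h0
  · rw [← h0]
    simp
  · rw [h w.1 h0, hl]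

end Popular

section Exch

variable {Ω W K Z : Type} [Fintype Ω] [Fintype W]

/-- The own sample and the copy in a gluing. -/
theorem marg_cp {p : Ω → ℝ} (p0 : ∀ ω, 0 ≤ p ω) (q : W → ℝ) (key : Ω → K) (pt : Ω → Z)
    (hk : Det p key pt) (Z₂ : W → Z) (n : ℕ) (i : Fin (n + 1)) :
    Marg (glue (cpn p key n) q (fun v => pt (v 0)) Z₂) (glue p q pt Z₂)
      (fun x => (x.1 i, x.2)) := by
  have h1 : glue (cpn p key n) q (fun v => pt (v 0)) Z₂ =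
      glue (cpn p key n) q (fun v => pt (v i)) Z₂ := by
    refine glue_congr (cpn_nonneg p0 key n) fun v hv => ?_
    obtain ⟨h2, h3⟩ := cpn_pos p0 key n v hv
    exact hk _ _ (h2 0) (h2 i) (h3 i).symm
  rw [h1]
  exact Marg.glue (Z₁ := pt) (Z₂ := Z₂) (cpn_marg p0 key n i) (Marg.id q)

end Exch

section Num

/-- Powers of a large number. -/
theorem inv_mono {Λ : ℝ} (hΛ : 1 ≤ Λ) {n₁ n₂ : ℕ} (h : n₁ ≤ n₂) : 1 / Λ ^ n₂ ≤ 1 / Λ ^ n₁ :=
  one_div_le_one_div_of_le (pow_pos (by linarith) _) (pow_le_pow_right₀ hΛ h)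

theorem inv_mul_pow {Λ : ℝ} (hΛ : 1 ≤ Λ) (n₁ n₂ : ℕ) : 1 / Λ ^ (n₁ + n₂) * Λ ^ n₂ = 1 / Λ ^ n₁ := by
  have : Λ ≠ 0 := by
    intro h
    linarith
  rw [pow_add]
  field_simp

/-- `K` copies of a small number, `K ≤ Λ`. -/
theorem mul_inv_le {Λ K x : ℝ} (hΛ : 1 ≤ Λ) (hK : K ≤ Λ) (hK0 : 0 ≤ K) {n : ℕ}
    (hx : x ≤ 1 / Λ ^ (n + 1)) : K * x ≤ 1 / Λ ^ n := by
  have hp : 0 < Λ ^ (n + 1) := pow_pos (by linarith) _
  calc K * x ≤ K * (1 / Λ ^ (n + 1)) := mul_le_mul_of_nonneg_left hx hK0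
    _ ≤ Λ * (1 / Λ ^ (n + 1)) := mul_le_mul_of_nonneg_right hK (by positivity)
    _ = 1 / Λ ^ (n + 1) * Λ ^ 1 := by rw [pow_one, mul_comm]
    _ = 1 / Λ ^ n := inv_mul_pow hΛ n 1

end Num

section UBQ

variable {h m c : ℕ} {NN : Finset (Fin h →₀ ℕ)} {B : Bd h m c} {θ : ℝ}

/-- The bound for unit vectors, from the engine with pivots in `Q`. -/
theorem ubQ (D : Ctx B θ) {a : Fin c → {γ // γ ∈ NN} → Fin m → ℝ[X]}
    {C₀ τ₀ Λ M ρ' ρq : ℝ} {b jq lo : ℕ} {P Q : Finset (Fin m)}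
    (hNo : ∀ β ∈ Q, β ∉ P → ¬ D.RelR a C₀ τ₀ (insert β P) (Λ ^ (b + (jq + 2))) (1 / Λ ^ lo) ρ')
    (hFU : ¬ D.Rel a C₀ τ₀ Qᶜ (1 / Λ ^ jq) ρq)
    (hM : ∀ ω, B.Ty a C₀ τ₀ ω → ∀ α l, |B.ev a ω (Pi.single α 1) l| ≤ M)
    {s : D.G → Fin m → Fin m → ℝ} (hs : VecF (Λ ^ b) P s) (hρ' : 0 ≤ ρ') (hΛ : 2 ≤ Λ)
    (hΛM : 1 + m * M ≤ Λ) {τ₁ τ₂ : ℝ} (h1 : τ₁ ≤ 1 / Λ ^ (lo + 1))
    (h2 : τ₂ ≤ 1 / Λ ^ (lo + b + jq + 2)) :
    UB D a C₀ τ₀ P s τ₁ τ₂ (ρq + m * ρ') := by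
  intro d hd
  have hΛ1 : 1 ≤ Λ := by linarith
  have hΛ0 : 0 < Λ := by linarith
  have hp0 : ∀ n : ℕ, 0 < Λ ^ n := fun n => pow_pos hΛ0 n
  have hpos : ∀ n : ℕ, 0 < 1 / Λ ^ n := fun n => div_pos one_pos (hp0 _)
  refine D.absorbQ (R := Λ ^ b) (R' := Λ ^ (b + (jq + 2))) (τ' := 1 / Λ ^ lo) (ρ' := ρ')
    (ρq := ρq) (τq := 1 / Λ ^ jq) (δ := 1 / Λ ^ (jq + 1)) (M := M) hNo hFU hM hs hd hρ'
    (hpos _) ?_ ?_ ?_ ?_ ?_ ?_
  · rw [div_lt_one (hp0 _)]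
    calc (1 : ℝ) < Λ := by linarith
      _ = Λ ^ 1 := (pow_one _).symm
      _ ≤ Λ ^ (jq + 1) := pow_le_pow_right₀ hΛ1 (by omega)
  · rw [one_div_one_div]
    exact pow_le_pow_right₀ hΛ1 (by omega)
  · rw [one_div_one_div, ← pow_add]
    have e2 : Λ ^ b ≤ Λ ^ (b + (jq + 1)) := pow_le_pow_right₀ hΛ1 (by omega)
    have e3 : Λ ^ (b + (jq + 2)) = Λ ^ (b + (jq + 1)) * Λ := by
      rw [← pow_succ]
      congr 1
    have e4 := mul_le_mul_of_nonneg_left hΛ (hp0 (b + (jq + 1))).le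
    rw [e3]
    linarith only [e2, e4]
  · have e2 := h2.trans (inv_mono hΛ1 (n₁ := jq + 1) (by omega))
    have e3 : 1 / Λ ^ (jq + 1) * (1 + m * M) ≤ 1 / Λ ^ jq := by
      rw [← inv_mul_pow hΛ1 jq 1, pow_one]
      exact mul_le_mul_of_nonneg_left hΛM (hpos _).le
    have e4 : (m : ℝ) * (1 / Λ ^ (jq + 1) * M) = 1 / Λ ^ (jq + 1) * (m * M) := by ring
    rw [e4]
    linarith only [e2, e3]
  · rw [one_div_one_div]
    have e2 := h2.trans (inv_mono hΛ1 (n₁ := lo + (jq + 1)) (by omega))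
    rw [← inv_mul_pow hΛ1 lo (jq + 1)]
    exact mul_le_mul_of_nonneg_right e2 (hp0 _).le
  · rw [one_div_one_div]
    have e2 := h2.trans (inv_mono hΛ1 (n₁ := lo + 1 + (jq + 1 + b)) (by omega))
    have e3 : Λ ^ b * (τ₂ * Λ ^ (jq + 1)) ≤ 1 / Λ ^ (lo + 1) := by
      rw [← inv_mul_pow hΛ1 (lo + 1) (jq + 1 + b)]
      have e4 := mul_le_mul_of_nonneg_right e2 (hp0 (jq + 1 + b)).le
      refine le_trans (le_of_eq ?_) e4
      rw [pow_add Λ (jq + 1) b]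
      ring
    have e4 : 1 / Λ ^ (lo + 1) * 2 ≤ 1 / Λ ^ lo := by
      rw [← inv_mul_pow hΛ1 lo 1, pow_one]
      exact mul_le_mul_of_nonneg_left hΛ (hpos _).le
    linarith only [h1, e3, e4]

end UBQ

end Pool.TIE38
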