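import Pool.Agent.H38.TIE.Pre

/-!
# The rows

The own sample has rows (`tv (t ω)`) which satisfy the equations and which are independent of the
exact point given the label and the time. Then there is a family of relations, function of the exact
point and polynomial in the time with coefficients functions of the line, such that the own rows are
combinations of the family, with positive probability.
-/

set_option autoImplicit false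

namespace Pool.TIE38

open Finset Polynomial
open Pool.Agent.H49.Ent Pool.Agent.H32.Dense Pool.STK Pool.BFL Pool.GLB Pool.CLU Pool.REL
open Pool.K2S (cpn)

section

variable {h m c : ℕ} {NN : Finset (Fin h →₀ ℕ)}

/-- The own rows satisfy the equations. -/
def Own (a : Fin c → {γ // γ ∈ NN} → Fin m → ℝ[X]) (B : Bd h m c) (τ₀ : ℝ) {𝒯 : Type} {J : ℕ}
    (t : B.Ω → 𝒯) (tv : 𝒯 → Fin J → Fin m → ℝ) (ω : B.Ω) : Prop :=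
  ∀ l k, |B.ev a ω (tv (t ω) l) k| ≤ τ₀

/-- **The rows which are found.** -/
structure OutT (a : Fin c → {γ // γ ∈ NN} → Fin m → ℝ[X]) (C₀ : ℝ) (B : Bd h m c) (Λ τ₀ : ℝ)
    {𝒯 : Type} {J : ℕ} (t : B.Ω → 𝒯) (tv : 𝒯 → Fin J → Fin m → ℝ)
    {θ : ℝ} (D : Ctx B θ) (P : Finset (Fin m)) (R : ℝ) (hi A₂ K₂ : ℕ) (ρ : ℝ)
    (s : D.G → Fin m → Fin m → ℝ) (sv : B.Ξ → Fin m → Fin m → ℝ)
    (F : B.Λ → ℤ → Fin m → Fin m → ℝ[X]) : Prop where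
  vec : VecF R P s
  vecv : VecF R P sv
  deg : ∀ l z π α, (F l z π α).natDegree ≤ K₂
  one : ∀ l z, ∀ π ∈ P, F l z π π = 1
  off : ∀ l z, ∀ π ∈ P, ∀ α ∈ P, α ≠ π → F l z π α = 0
  pb : ρ ≤ Pb D.q (fun w => D.GpR a C₀ τ₀ (1 / Λ ^ hi) P s w ∧ Own a B τ₀ t tv (D.pr w) ∧
    (∀ π ∈ P, sv (B.pt (D.pr w)) π π = 1) ∧
    (∀ π ∈ P, ∀ β, |s (D.x w) π β - sv (B.pt (D.pr w)) π β| * Λ ^ hi ≤ 1) ∧
    (∀ π ∈ P, ∀ β, |s (D.x w) π β - (F (B.L (D.pr w)) ⌊B.th (D.pr w) * Λ ^ A₂⌋ π β).eval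
      (B.th (D.pr w))| * Λ ^ hi ≤ 1) ∧
    ∀ l β, |tv (t (D.pr w)) l β - ∑ π ∈ P, tv (t (D.pr w)) l π * s (D.x w) π β| * Λ ^ hi ≤ 1)

/-- **The own rows are combinations of the family.** -/
theorem own_span {B : Bd h m c} (hB : B.Ok) {a : Fin c → {γ // γ ∈ NN} → Fin m → ℝ[X]}
    {C₀ τ₀ θ₁ θ₂ θ' : ℝ} (D : Ctx B θ') {P : Finset (Fin m)} {s : D.G → Fin m → Fin m → ℝ}
    {R : ℝ} (hs : VecF R P s) (E1 : D.W → Prop) (G : B.Ω → Prop) {𝒯 : Type} (t : B.Ω → 𝒯)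
    {J : ℕ} (tv : 𝒯 → Fin J → Fin m → ℝ) {Qb : ℝ} (htv : ∀ x l α, |tv x l α| ≤ Qb)
    (h1 : CH B.p B.L B.b - CH B.p B.L (fun ω => ((B.b ω, B.th ω), G ω)) ≤ θ₁)
    (h2 : CH B.p t (fun ω => ((B.b ω, B.th ω), G ω)) - CH B.p t (fun ω => (B.pt ω, G ω)) ≤ θ₂)
    (h12 : θ₁ + ((1 : ℕ) : ℝ) * θ₂ ≤ θ') {τ : ℝ} (hE1 : ∀ w, E1 w → D.GpR a C₀ τ₀ τ P s w)
    (hGT : ∀ ω, G ω → B.Ty a C₀ τ₀ ω ∧ Own a B τ₀ t tv ω) {r : ℝ}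
    (hGP : ∀ ω, G ω → Pop D.q (fun w => B.pt (D.pr w)) E1 r (B.pt ω)) {δ τ₁ τ₂ ρn : ℝ}
    (hδ : 0 < δ) (hτ₁ : τ + 2 * m * (R * τ₀) ≤ τ₁) (hτ₂ : τ₀ + 2 * m * (Qb * τ₀) ≤ τ₂)
    (hτ10 : 0 ≤ τ₁)
    (hU : ∀ (D'' : Ctx B (2 * θ')) (s'' : D''.G → Fin m → Fin m → ℝ), VecF R P s'' →
      UB D'' a C₀ τ₀ P s'' τ₁ ((τ₂ + m * (Qb * τ₁)) / δ) ρn) :
    r * Pb B.p G - J * ρn ≤ Pb (glue B.p D.q B.pt (fun w => B.pt (D.pr w))) (fun x => G x.1 ∧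
      E1 x.2 ∧ ∀ l β, |tv (t x.1) l β - ∑ π ∈ P, tv (t x.1) l π * s (D.x x.2) π β| ≤ δ) := by
  classical
  have hp := hB.isLaw
  have p0 := hp.nonneg
  have n0 := D.isLaw.nonneg
  have hx : Det B.p (fun ω => (B.pt ω, G ω)) (fun ω => ((B.b ω, B.th ω), G ω)) := by
    intro ω ω' a1 a2 e
    obtain ⟨e1, e2⟩ := Prod.ext_iff.mp e
    exact Prod.ext (Prod.ext (hB.b_pt ω ω' a1 a2 e1) (hB.th_pt ω ω' a1 a2 e1)) e2
  have hL : Det B.p (fun ω => (B.L ω, ((B.b ω, B.th ω), G ω))) (fun ω => (B.pt ω, G ω)) := by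
    intro ω ω' a1 a2 e
    obtain ⟨e1, e2⟩ := Prod.ext_iff.mp e
    obtain ⟨e3, e4⟩ := Prod.ext_iff.mp e2
    exact Prod.ext (hB.pt_L ω ω' a1 a2 (Prod.ext e1 (Prod.ext_iff.mp e3).2)) e4
  let C1 : Ctx B θ₁ := ofFn hB (fun ω => ((B.b ω, B.th ω), G ω))
    (fun _ _ _ _ e => (Prod.ext_iff.mp (Prod.ext_iff.mp e).1).1)
    (fun _ _ _ _ e => (Prod.ext_iff.mp (Prod.ext_iff.mp e).1).2) h1
  let C2 : Ctx B θ' := (cpy C1 (fun ω : B.Ω => (B.pt ω, G ω)) t 1 hx hL h2).mono h12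
  let Dpp : Ctx B (2 * θ') := C2.gl D hB
  have hq : Dpp.q = glue (cpn B.p (fun ω => (B.pt ω, G ω)) 1) D.q (fun v => B.pt (v 0))
    (fun w => B.pt (D.pr w)) := rfl
  have g0 : ∀ x, 0 ≤ Dpp.q x := Dpp.isLaw.nonneg
  have hlaw : ∀ z, law (cpn B.p (fun ω => (B.pt ω, G ω)) 1) (fun v => B.pt (v 0)) z =
      law D.q (fun w => B.pt (D.pr w)) z := fun z => C2.law_pt D z
  have hcp : ∀ x : (Fin 2 → B.Ω) × D.W, 0 < Dpp.q x → B.pt (x.1 0) = B.pt (D.pr x.2) ∧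
      B.pt (x.1 1) = B.pt (x.1 0) ∧ (G (x.1 1) ↔ G (x.1 0)) := by
    intro x hx'
    rw [hq] at hx'
    obtain ⟨k1, k2, k3⟩ := (glue_pos_iff (cpn_nonneg p0 _ 1) n0 x).1 hx'
    obtain ⟨k4, k5⟩ := cpn_pos p0 _ 1 _ k1
    obtain ⟨k6, k7⟩ := Prod.ext_iff.mp (k5 1)
    exact ⟨k3, k6, iff_of_eq k7⟩
  -- both events
  have a1 : r * Pb B.p G ≤ Pb Dpp.q (fun x : (Fin 2 → B.Ω) × D.W => G (x.1 0) ∧ E1 x.2) := by
    have e1 := pop_glue (p₁ := cpn B.p (fun ω => (B.pt ω, G ω)) 1) (p₂ := D.q)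
      (cpn_nonneg p0 _ 1) n0 (Z₁ := fun v : Fin 2 → B.Ω => B.pt (v 0))
      (Z₂ := fun w => B.pt (D.pr w)) hlaw (fun v : Fin 2 → B.Ω => G (v 0)) E1 (r := r)
      (fun v hv => hGP _ hv)
    have e2 : Pb (cpn B.p (fun ω => (B.pt ω, G ω)) 1) (fun v : Fin 2 → B.Ω => G (v 0)) =
        Pb B.p G := Pool.MIC.Marg.Pb_eq (cpn_marg p0 _ 1 0) G
    rw [e2] at e1
    exact e1
  -- the bad events
  have a2 : ∀ l : Fin J, Pb Dpp.q (fun x : (Fin 2 → B.Ω) × D.W => (G (x.1 0) ∧ E1 x.2) ∧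
      ∃ β, δ < |tv (t (x.1 1)) l β - ∑ π ∈ P, tv (t (x.1 1)) l π * s (D.x x.2) π β|) ≤ ρn := by
    intro l
    have hs2 : VecF R P (fun y : Dpp.G => s y.2) :=
      ⟨fun y π α => hs.1 _ _ _, fun y π hπ α hα hne => hs.2 _ _ hπ _ hα hne⟩
    have e1 := spanU Dpp (a := a) (C₀ := C₀) (τ₀ := τ₀) (P := P) (R := R)
      (s := fun y : Dpp.G => s y.2) (t := fun y : Dpp.G => tv (y.1.2 0) l) hs2
      (τ₁ := τ₁) (τ₂ := τ₂) (δ := δ) (Q := Qb) hδ hτ10 (hU Dpp _ hs2)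
    refine le_trans (Pool.MIC.Pb_le_of_imp g0 fun x hx' hh => ?_) e1
    obtain ⟨⟨k1, k2⟩, β, k3⟩ := hh
    obtain ⟨k4, k5, k6⟩ := hcp x hx'
    have k7 := hE1 _ k2
    obtain ⟨k8, k9⟩ := hGT _ k1
    obtain ⟨k10, k11⟩ := hGT _ (k6.2 k1)
    refine ⟨⟨k8, fun π hπ => ⟨(k7.2 π hπ).1, fun k => ?_⟩⟩, fun α => htv _ _ _, fun k => ?_,
      β, ?_⟩
    · exact (B.ev_near k8 k7.1 k4 (fun α => hs.1 _ _ _) ((k7.2 π hπ).2 k)).trans hτ₁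
    · exact (B.ev_near k8 k10 k5.symm (fun α => htv _ _ _) (k11 l k)).trans hτ₂
    · unfold rest
      rw [Pi.sub_apply, Finset.sum_apply]
      simp only [Pi.smul_apply, smul_eq_mul]
      exact k3
  -- the exchange
  have a3 : Pb Dpp.q (fun x : (Fin 2 → B.Ω) × D.W => G (x.1 1) ∧ E1 x.2 ∧
      ∀ l β, |tv (t (x.1 1)) l β - ∑ π ∈ P, tv (t (x.1 1)) l π * s (D.x x.2) π β| ≤ δ) =
      Pb (glue B.p D.q B.pt (fun w => B.pt (D.pr w))) (fun x => G x.1 ∧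
      E1 x.2 ∧ ∀ l β, |tv (t x.1) l β - ∑ π ∈ P, tv (t x.1) l π * s (D.x x.2) π β| ≤ δ) := by
    have e1 := marg_cp p0 D.q (fun ω => (B.pt ω, G ω)) B.pt
      (fun _ _ _ _ e => (Prod.ext_iff.mp e).1) (fun w => B.pt (D.pr w)) 1 1
    exact Pool.MIC.Marg.Pb_eq e1 (fun x => G x.1 ∧
      E1 x.2 ∧ ∀ l β, |tv (t x.1) l β - ∑ π ∈ P, tv (t x.1) l π * s (D.x x.2) π β| ≤ δ)
  rw [← a3]
  have a4 : Pb Dpp.q (fun x : (Fin 2 → B.Ω) × D.W => G (x.1 0) ∧ E1 x.2) ≤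
      Pb Dpp.q (fun x : (Fin 2 → B.Ω) × D.W => G (x.1 1) ∧ E1 x.2 ∧
      ∀ l β, |tv (t (x.1 1)) l β - ∑ π ∈ P, tv (t (x.1 1)) l π * s (D.x x.2) π β| ≤ δ) +
      Pb Dpp.q (fun x : (Fin 2 → B.Ω) × D.W => ∃ l : Fin J, (G (x.1 0) ∧ E1 x.2) ∧
      ∃ β, δ < |tv (t (x.1 1)) l β - ∑ π ∈ P, tv (t (x.1 1)) l π * s (D.x x.2) π β|) := by
    refine Pool.MSD.pb_or g0 fun x hx' hh => ?_
    obtain ⟨k4, k5, k6⟩ := hcp x hx'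
    by_cases h3 : ∀ l β, |tv (t (x.1 1)) l β - ∑ π ∈ P, tv (t (x.1 1)) l π *
        s (D.x x.2) π β| ≤ δ
    · exact Or.inl ⟨k6.2 hh.1, hh.2, h3⟩
    · push Not at h3
      obtain ⟨l, β, h4⟩ := h3
      exact Or.inr ⟨l, hh, β, h4⟩
  have a5 := Pool.MIC.Pb_exists_le g0 (fun (l : Fin J) (x : (Fin 2 → B.Ω) × D.W) =>
    (G (x.1 0) ∧ E1 x.2) ∧
      ∃ β, δ < |tv (t (x.1 1)) l β - ∑ π ∈ P, tv (t (x.1 1)) l π * s (D.x x.2) π β|)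
  have a6 : ∑ l : Fin J, Pb Dpp.q (fun x : (Fin 2 → B.Ω) × D.W => (G (x.1 0) ∧ E1 x.2) ∧
      ∃ β, δ < |tv (t (x.1 1)) l β - ∑ π ∈ P, tv (t (x.1 1)) l π * s (D.x x.2) π β|) ≤
      J * ρn := by
    refine (Finset.sum_le_sum fun l _ => a2 l).trans (le_of_eq ?_)
    rw [Finset.sum_const, Finset.card_univ, Fintype.card_fin, nsmul_eq_mul]
  exact sub_le_iff_le_add.2 (a1.trans (a4.trans (add_le_add le_rfl (a5.trans a6))))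

/-- **The rows.** -/
theorem tieRows (h m c : ℕ) (NN : Finset (Fin h →₀ ℕ))
    (a : Fin c → {γ // γ ∈ NN} → Fin m → ℝ[X]) (C₀ : ℝ) (hC₀ : 1 ≤ C₀) (Q : Finset (Fin m))
    (jq J b₀ : ℕ) (V : ℕ → ℕ → ℕ) (ρ₀ : ℝ) (hρ₀ : 0 < ρ₀) :
    ∃ (Am κm : ℕ) (c₁ e₀ Λ₀ : ℝ), 0 < c₁ ∧ 0 < e₀ ∧ 1 ≤ Λ₀ ∧
    ∀ (B : Bd h m c) (_ : B.Ok) (θ Λ τ₀ : ℝ) (𝒯 : Type) (t : B.Ω → 𝒯)
      (tv : 𝒯 → Fin J → Fin m → ℝ), Real.log 2 ≤ θ → Λ₀ ≤ Λ → 0 ≤ τ₀ → τ₀ * Λ ^ Am ≤ 1 →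
      P2 B.p B.L (fun ω ω' => |B.th ω - B.th ω'| * Λ < 1) ≤ e₀ →
      CH B.p B.L B.b - CH B.p B.L (fun ω => (B.b ω, B.th ω)) ≤ θ →
      CH B.p t (fun ω => (B.b ω, B.th ω)) - CH B.p t B.pt ≤ θ →
      (∀ D'' : Ctx B (κm * θ), ¬ D''.Rel a C₀ τ₀ Qᶜ (1 / Λ ^ jq) c₁) →
      ρ₀ ≤ Pb B.p (B.Ty a C₀ τ₀) →
      (∀ x l α, |tv x l α| ≤ Λ ^ b₀) →
      Pb B.p (fun ω => B.Ty a C₀ τ₀ ω ∧ ¬ Own a B τ₀ t tv ω) ≤ e₀ →
      ∃ (b lo hi A₂ K₂ : ℕ) (P : Finset (Fin m)) (D : Ctx B (κm * θ))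
        (s : D.G → Fin m → Fin m → ℝ) (sv : B.Ξ → Fin m → Fin m → ℝ)
        (F : B.Λ → ℤ → Fin m → Fin m → ℝ[X]), b ≤ Q.card * (jq + 2) ∧ lo ≤ Am ∧ hi ≤ Am ∧
        A₂ ≤ Am ∧ K₂ ≤ Am ∧ hi = V lo A₂ ∧ P ⊆ Q ∧
        OutT a C₀ B Λ τ₀ t tv D P (Λ ^ b) hi A₂ K₂ c₁ s sv F := by
  classical
  obtain ⟨M, hM1, hM⟩ := ev_bd a hC₀
  obtain ⟨bm, hbm⟩ : ∃ bm : ℕ, bm = Q.card * (jq + 2) := ⟨_, rfl⟩
  obtain ⟨Ve, hVe⟩ : ∃ Ve : ℕ → ℕ → ℕ, Ve = fun lo A₂ =>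
    V lo A₂ + 3 * bm + b₀ + lo + jq + 12 := ⟨_, rfl⟩
  have hN0 : (0 : ℝ) < m + J + 1 := by positivity
  have hm1 : (0 : ℝ) < m + 1 := by positivity
  obtain ⟨Φ, hΦ⟩ : ∃ Φ : ℝ → ℝ, Φ = fun x : ℝ => x ^ 2 / (64 * ((m : ℝ) + 1) * ((m : ℝ) + J + 1)) :=
    ⟨_, rfl⟩
  have hΦ0 : ∀ x, 0 < x → 0 < Φ x := by
    intro x hx
    rw [hΦ]
    positivity
  obtain ⟨j, Am, κm, c₁, e₀, Λ₀, hc₁, he₀, hΛ₀, H⟩ := engQ h m c NN a C₀ hC₀ Q jq Ve Φ hΦ0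
    (fun κ => 2 * (κ + 4)) Q.card 1 0 ρ₀ hρ₀
  obtain ⟨co, hco⟩ : ∃ co : ℝ, co = min c₁ (c₁ ^ 2 / (64 * (m + J + 1))) := ⟨_, rfl⟩
  have hco0 : 0 < co := by
    rw [hco]
    exact lt_min hc₁ (by positivity)
  have hco1 : co ≤ c₁ := by
    rw [hco]
    exact min_le_left _ _
  have hco2 : co * (64 * (m + J + 1)) ≤ c₁ ^ 2 := by
    rw [← le_div_iff₀ (by positivity), hco]
    exact min_le_right _ _
  refine ⟨Am, κm, co, min e₀ (c₁ / 4), Λ₀ + m * M + 3 * m + 4, hco0,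
    lt_min he₀ (by linarith), ?_, ?_⟩
  · have e1 : 0 ≤ (m : ℝ) * M := by positivity
    have e2 : (0 : ℝ) ≤ m := Nat.cast_nonneg m
    linarith
  intro B hB θ Λ τ₀ 𝒯 t tv hθ2 hΛ hτ00 hτ₀ hsep hLt htp hFU hTy htv hown
  have hp := hB.isLaw
  have p0 := hp.nonneg
  have hmM : 0 ≤ (m : ℝ) * M := by positivity
  have hmm : (0 : ℝ) ≤ m := Nat.cast_nonneg m
  have hθ0 : 0 ≤ θ := le_trans (Real.log_nonneg (by norm_num)) hθ2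
  have hΛ1 : 1 ≤ Λ := by linarith only [hmM, hΛ, hmm, hΛ₀]
  have hΛ2 : 2 ≤ Λ := by linarith only [hmM, hΛ, hmm, hΛ₀]
  have hΛ0 : 0 < Λ := by linarith only [hΛ1]
  have hp0 : ∀ n : ℕ, 0 < Λ ^ n := fun n => pow_pos hΛ0 n
  have hpos : ∀ n : ℕ, 0 < 1 / Λ ^ n := fun n => div_pos one_pos (hp0 _)
  -- the start
  obtain ⟨D0, hD0⟩ : ∃ D0 : Ctx B (((1 : ℕ) : ℝ) * θ), D0.RelR a C₀ τ₀ ∅ (Λ ^ 0) (1 / Λ ^ j) ρ₀ := by
    refine ⟨(ofFn hB (fun ω => (B.b ω, B.th ω)) (fun _ _ _ _ e => (Prod.ext_iff.mp e).1)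
      (fun _ _ _ _ e => (Prod.ext_iff.mp e).2) hLt).mono (by
        rw [Nat.cast_one, one_mul]), fun _ _ _ => 0, ⟨fun _ _ _ => ?_, fun _ π hπ => ?_⟩, ?_⟩
    · rw [abs_zero]
      exact (hp0 0).le
    · exact absurd hπ (Finset.notMem_empty π)
    · refine hTy.trans (Pool.MIC.Pb_le_of_imp p0 fun ω _ hω => ⟨hω, fun π hπ => ?_⟩)
      exact absurd hπ (Finset.notMem_empty π)
  have hFU1 : ∀ D'' : Ctx B (κm * θ), ¬ D''.Rel a C₀ τ₀ Qᶜ (1 / Λ ^ jq) c₁ := fun D'' h1 =>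
    hFU D'' (h1.mono le_rfl hco1)
  obtain ⟨κ, κ', b, lo, Hi, A₂, K₂, ρ, ρ', P, D, s, F, hκ, hκ', hΨ, hlo, hHi, hA₂, hK₂, hV, hρ,
    hρ'1, hρ'Φ, hb, -, hPQ, O, hNo⟩ := H B hB θ Λ τ₀ hθ0 (by linarith only [hmM, hΛ, hmm]) hτ₀
      (hsep.trans (min_le_left _ _)) hFU1 D0 ∅ (Finset.empty_subset _) (by simp) hD0
  rw [Nat.zero_add] at hb
  rw [← hbm] at hb
  obtain ⟨hi, hhi⟩ : ∃ hi : ℕ, hi = V lo A₂ := ⟨_, rfl⟩
  have hV' : hi + 3 * bm + b₀ + lo + jq + 12 ≤ Hi := by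
    rw [hVe] at hV
    simp only at hV
    rw [hhi]
    exact hV
  have hρ0 : 0 < ρ := lt_of_lt_of_le hc₁ hρ
  have hρ'0 : 0 ≤ ρ' := hc₁.le.trans hρ'1
  obtain ⟨ρn, hρn⟩ : ∃ ρn : ℝ, ρn = co + m * ρ' := ⟨_, rfl⟩
  have hρn0 : 0 ≤ ρn := by
    rw [hρn]
    positivity
  have hρn1 : ρn * (32 * (m + J + 1)) ≤ ρ ^ 2 := by
    have e1 : co * (64 * (m + J + 1)) ≤ ρ ^ 2 := hco2.trans (pow_le_pow_left₀ hc₁.le hρ 2)
    have e2 : ρ' * (64 * (m + 1) * (m + J + 1)) ≤ ρ ^ 2 := by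
      rw [← le_div_iff₀ (by positivity)]
      have := hρ'Φ
      rw [hΦ] at this
      exact this
    have e3 : (m : ℝ) * ρ' * (64 * (m + J + 1)) ≤ ρ' * (64 * (m + 1) * (m + J + 1)) := by
      have : 0 ≤ ρ' * (64 * (m + J + 1)) := by positivity
      linarith
    rw [hρn]
    linarith
  have hρnm : (m : ℝ) * ρn ≤ (ρ / 4) ^ 2 := by
    have e1 : (m : ℝ) * ρn * 16 ≤ ρn * (32 * (m + J + 1)) := by
      have e2 : 0 ≤ ρn * (16 * m + 32 * J + 32) := by positivity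
      linarith
    have e3 : (ρ / 4) ^ 2 = ρ ^ 2 / 16 := by ring
    rw [e3]
    linarith
  have hρnJ : (J : ℝ) * ρn ≤ ρ ^ 2 / 32 := by
    have e2 : 0 ≤ ρn * (32 * m + 32) := by positivity
    linarith
  have hτH : τ₀ ≤ 1 / Λ ^ Hi := by
    rw [le_div_iff₀ (hp0 _)]
    exact le_trans (mul_le_mul_of_nonneg_left (pow_le_pow_right₀ hΛ1 hHi) hτ00) hτ₀
  have hΛM : 1 + m * M ≤ Λ := by linarith only [hΛ, hmm, hΛ₀]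
  have hΛ3 : 1 + 3 * (m : ℝ) ≤ Λ := by linarith only [hΛ, hmM, hΛ₀]
  have hMt : ∀ ω, B.Ty a C₀ τ₀ ω → ∀ α l, |B.ev a ω (Pi.single α 1) l| ≤ M := fun ω hω α l =>
    hM _ _ hω.2.1 hω.1 α l
  -- a bound
  have hnum : ∀ (b' n : ℕ), n + 1 + b' ≤ Hi → 1 / Λ ^ Hi + 2 * m * (Λ ^ b' * τ₀) +
      m * (Λ ^ b' * (1 / Λ ^ Hi)) ≤ 1 / Λ ^ n := by
    intro b' n hn
    have e1 : Λ ^ b' * (1 / Λ ^ Hi) ≤ 1 / Λ ^ (n + 1) := by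
      rw [← inv_mul_pow hΛ1 (n + 1) b', mul_comm]
      exact mul_le_mul_of_nonneg_right (inv_mono hΛ1 hn) (hp0 _).le
    have e2 : Λ ^ b' * τ₀ ≤ Λ ^ b' * (1 / Λ ^ Hi) := mul_le_mul_of_nonneg_left hτH (hp0 _).le
    have e3 : 1 / Λ ^ Hi ≤ 1 / Λ ^ (n + 1) := inv_mono hΛ1 (by omega)
    have e4 := mul_inv_le hΛ1 hΛ3 (by positivity) (le_refl (1 / Λ ^ (n + 1)))
    have e5 : (m : ℝ) * (Λ ^ b' * τ₀) ≤ m * (1 / Λ ^ (n + 1)) :=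
      mul_le_mul_of_nonneg_left (e2.trans e1) hmm
    have e6 : (m : ℝ) * (Λ ^ b' * (1 / Λ ^ Hi)) ≤ m * (1 / Λ ^ (n + 1)) :=
      mul_le_mul_of_nonneg_left e1 hmm
    linarith
  -- no relations in the contexts below
  have hNo' : ∀ {θ' : ℝ} (D'' : Ctx B θ'), θ' ≤ κ' * θ → ∀ β ∈ Q, β ∉ P →
      ¬ D''.RelR a C₀ τ₀ (insert β P) (Λ ^ (b + (jq + 2))) (1 / Λ ^ lo) ρ' := by
    intro θ' D'' hcost β hβQ hβ hrel
    exact hNo (D''.mono hcost) (insert β P) (Finset.ssubset_insert hβ)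
      (Finset.insert_subset hβQ hPQ) (hrel.cost hcost)
  have hκθ : (κ' : ℝ) * θ ≤ κm * θ := mul_le_mul_of_nonneg_right (by exact_mod_cast hκ') hθ0
  have hFU' : ∀ {θ' : ℝ} (D'' : Ctx B θ'), θ' ≤ κ' * θ →
      ¬ D''.Rel a C₀ τ₀ Qᶜ (1 / Λ ^ jq) co := by
    intro θ' D'' hcost hrel
    exact hFU (D''.mono (hcost.trans hκθ)) (hrel.cost (hcost.trans hκθ))
  have hΨ' : (2 : ℝ) * ((κ + 4) * θ) ≤ κ' * θ := by
    have e1 : ((2 * (κ + 4) : ℕ) : ℝ) ≤ κ' := by exact_mod_cast hΨ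
    push_cast at e1
    have := mul_le_mul_of_nonneg_right e1 hθ0
    linarith
  -- the visible family
  have hU1 := ubQ (D.gl D hB) (a := a) (C₀ := C₀) (τ₀ := τ₀) (Λ := Λ) (M := M) (ρ' := ρ')
    (ρq := co) (b := b) (jq := jq) (lo := lo) (P := P) (Q := Q)
    (hNo' (D.gl D hB) (by
      have : (0 : ℝ) ≤ 8 * θ := by positivity
      linarith)) (hFU' (D.gl D hB) (by
      have : (0 : ℝ) ≤ 8 * θ := by positivity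
      linarith)) hMt (s := fun y => s y.1)
    ⟨fun y π α => O.vec.1 _ _ _, fun y π hπ α hα hne => O.vec.2 _ _ hπ _ hα hne⟩ hρ'0 hΛ2 hΛM
    (τ₁ := 1 / Λ ^ Hi) (τ₂ := (1 / Λ ^ Hi + 2 * m * (Λ ^ b * τ₀) + m * (Λ ^ b * (1 / Λ ^ Hi))) /
      (1 / Λ ^ (hi + 2))) (inv_mono hΛ1 (by omega)) (by
      rw [div_le_iff₀ (hpos _)]
      have e1 := hnum b (lo + b + jq + 2 + (hi + 2)) (by omega)
      refine e1.trans (le_of_eq ?_)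
      rw [pow_add Λ (lo + b + jq + 2) (hi + 2)]
      field_simp)
  rw [← hρn] at hU1
  obtain ⟨sv, hsv, hvis⟩ := visU D hB O.vec (hpos (hi + 2)) hρn0 (hpos Hi).le hU1
  -- the event of the engine
  obtain ⟨E1, hE1⟩ : ∃ E1 : D.W → Prop, E1 = fun w =>
    (D.GpR a C₀ τ₀ (1 / Λ ^ Hi) P s w ∧
      ∀ π ∈ P, ∀ β, |s (D.x w) π β - (F (B.L (D.pr w)) ⌊B.th (D.pr w) * Λ ^ A₂⌋ π β).eval
        (B.th (D.pr w))| * Λ ^ Hi ≤ 1) ∧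
    (∀ π ∈ P, sv (B.pt (D.pr w)) π π = 1) ∧
      ∀ π ∈ P, ∀ β, |s (D.x w) π β - sv (B.pt (D.pr w)) π β| ≤ 1 / Λ ^ (hi + 2) := ⟨_, rfl⟩
  have n0 := D.isLaw.nonneg
  have hE1p : 3 / 4 * ρ ≤ Pb D.q E1 := by
    have e1 : ρ ≤ Pb D.q E1 + Real.sqrt (m * ρn) := by
      refine O.pb.trans (le_trans ?_ (add_le_add le_rfl hvis))
      refine Pool.MSD.pb_or n0 fun w _ hw => ?_
      by_cases h1 : (∀ π ∈ P, sv (B.pt (D.pr w)) π π = 1) ∧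
          ∀ π ∈ P, ∀ β, |s (D.x w) π β - sv (B.pt (D.pr w)) π β| ≤ 1 / Λ ^ (hi + 2)
      · left
        rw [hE1]
        exact ⟨hw, h1⟩
      · right
        exact ⟨hw.1, h1⟩
    have e2 : Real.sqrt (m * ρn) ≤ ρ / 4 := by
      rw [← Real.sqrt_sq (show 0 ≤ ρ / 4 by linarith)]
      exact Real.sqrt_le_sqrt hρnm
    linarith
  -- the event of the own sample
  obtain ⟨G, hG⟩ : ∃ G : B.Ω → Prop, G = fun ω => B.Ty a C₀ τ₀ ω ∧ Own a B τ₀ t tv ω ∧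
    (∀ π ∈ P, sv (B.pt ω) π π = 1) ∧
    (∀ π ∈ P, ∀ β, |sv (B.pt ω) π β - (F (B.L ω) ⌊B.th ω * Λ ^ A₂⌋ π β).eval (B.th ω)| ≤
      2 / Λ ^ (hi + 2)) ∧
    Pop D.q (fun w => B.pt (D.pr w)) E1 (ρ / 4) (B.pt ω) := ⟨_, rfl⟩
  have hGp : ρ / 4 ≤ Pb B.p G := by
    have e1 : Pb D.q E1 ≤ Pb D.q (fun w => G (D.pr w)) +
        (Pb D.q (fun w => E1 w ∧ ¬ Pop D.q (fun w => B.pt (D.pr w)) E1 (ρ / 4) (B.pt (D.pr w))) +
        Pb D.q (fun w => B.Ty a C₀ τ₀ (D.pr w) ∧ ¬ Own a B τ₀ t tv (D.pr w))) := by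
      refine le_trans ?_ (add_le_add le_rfl (Pool.GLB.Pb_two n0 _ _))
      refine Pool.MSD.pb_or n0 fun w _ hw => ?_
      by_cases h1 : Pop D.q (fun w => B.pt (D.pr w)) E1 (ρ / 4) (B.pt (D.pr w))
      · have hw' := hw
        rw [hE1] at hw'
        obtain ⟨⟨g1, g2⟩, g3, g4⟩ := hw'
        by_cases h2 : Own a B τ₀ t tv (D.pr w)
        · left
          rw [hG]
          refine ⟨g1.1, h2, g3, fun π hπ β => ?_, h1⟩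
          have e2 := g4 π hπ β
          have e3 := g2 π hπ β
          rw [← le_div_iff₀ (hp0 _)] at e3
          have e4 : 1 / Λ ^ Hi ≤ 1 / Λ ^ (hi + 2) := inv_mono hΛ1 (by omega)
          have e5 : sv (B.pt (D.pr w)) π β - (F (B.L (D.pr w)) ⌊B.th (D.pr w) * Λ ^ A₂⌋ π
              β).eval (B.th (D.pr w)) = (s (D.x w) π β - (F (B.L (D.pr w))
              ⌊B.th (D.pr w) * Λ ^ A₂⌋ π β).eval (B.th (D.pr w))) -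
              (s (D.x w) π β - sv (B.pt (D.pr w)) π β) := by ring
          rw [e5]
          refine (abs_sub _ _).trans ?_
          have e6 : 2 / Λ ^ (hi + 2) = 1 / Λ ^ (hi + 2) + 1 / Λ ^ (hi + 2) := by ring
          rw [e6]
          linarith
        · right
          exact Or.inr ⟨g1.1, h2⟩
      · right
        exact Or.inl ⟨hw, h1⟩
    have e2 := pop_le D.isLaw (fun w => B.pt (D.pr w)) E1 (show 0 ≤ ρ / 4 by linarith)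
    have e3 : Pb D.q (fun w => B.Ty a C₀ τ₀ (D.pr w) ∧ ¬ Own a B τ₀ t tv (D.pr w)) ≤ ρ / 4 := by
      have e4 := Pool.MIC.Marg.Pb_eq D.mg (fun ω => B.Ty a C₀ τ₀ ω ∧ ¬ Own a B τ₀ t tv ω)
      rw [e4]
      refine hown.trans ((min_le_right _ _).trans ?_)
      linarith
    have e5 : Pb D.q (fun w => G (D.pr w)) = Pb B.p G := Pool.MIC.Marg.Pb_eq D.mg G
    rw [e5] at e1
    linarith
  have hCi : CH B.p B.L B.b - CH B.p B.L (fun ω => ((B.b ω, B.th ω), G ω)) ≤ 2 * θ := by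
    have e1 := CH_ev hp B.L (fun ω => (B.b ω, B.th ω)) G
    linarith
  have hCu : CH B.p t (fun ω => ((B.b ω, B.th ω), G ω)) - CH B.p t (fun ω => (B.pt ω, G ω)) ≤
      2 * θ := by
    have e1 := CH_ev hp t B.pt G
    have e2 : CH B.p t (fun ω => ((B.b ω, B.th ω), G ω)) ≤
        CH B.p t (fun ω => (B.b ω, B.th ω)) :=
      CH_mono_cond p0 fun _ _ _ _ e => (Prod.ext_iff.mp e).1
    linarith
  have hcost : (κ : ℝ) * θ ≤ (κ + 4) * θ := by linarith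
  have hcost2 : 2 * θ + ((1 : ℕ) : ℝ) * (2 * θ) ≤ (κ + 4) * θ := by
    have : (0 : ℝ) ≤ κ * θ := by positivity
    push_cast
    linarith
  have hcost3 : 2 * θ ≤ (κ + 4) * θ := by
    have : (0 : ℝ) ≤ κ * θ := by positivity
    linarith
  have hGT : ∀ ω, G ω → B.Ty a C₀ τ₀ ω ∧ Own a B τ₀ t tv ω := by
    intro ω hω
    rw [hG] at hω
    exact ⟨hω.1, hω.2.1⟩
  have hEG : ∀ w, E1 w → D.GpR a C₀ τ₀ (1 / Λ ^ Hi) P s w := by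
    intro w hw
    rw [hE1] at hw
    exact hw.1.1
  have hp1 : ∀ n : ℕ, 0 ≤ (m : ℝ) * (Λ ^ n * (1 / Λ ^ Hi)) := fun n =>
    mul_nonneg hmm (mul_nonneg (hp0 n).le (hpos Hi).le)
  have hsp := own_span hB (a := a) (C₀ := C₀) (τ₀ := τ₀) (D.mono hcost) (s := s) O.vec E1 G t tv
    htv hCi hCu hcost2 (τ := 1 / Λ ^ Hi) hEG hGT (r := ρ / 4) (fun ω hω => by
      rw [hG] at hω
      exact hω.2.2.2.2) (δ := 1 / Λ ^ hi) (τ₁ := 1 / Λ ^ (hi + b₀ + lo + b + jq + 5))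
    (τ₂ := 1 / Λ ^ (hi + lo + b + jq + 4)) (ρn := ρn) (hpos hi) (by
      have e1 := hnum b (hi + b₀ + lo + b + jq + 5) (by omega)
      have e2 := hp1 b
      linarith) (by
      have e1 := hnum b₀ (hi + lo + b + jq + 4) (by omega)
      have e2 := hp1 b₀
      linarith) (hpos _).le (fun D'' s'' hs'' => by
      rw [hρn]
      refine ubQ D'' (Λ := Λ) (M := M) (b := b) (jq := jq) (lo := lo) (Q := Q) (hNo' D'' hΨ')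
        (hFU' D'' hΨ') hMt hs'' hρ'0 hΛ2 hΛM (inv_mono hΛ1 (by omega)) ?_
      rw [div_le_iff₀ (hpos _)]
      have e1 : Λ ^ b₀ * (1 / Λ ^ (hi + b₀ + lo + b + jq + 5)) ≤
          1 / Λ ^ (hi + lo + b + jq + 4) := by
        rw [← inv_mul_pow hΛ1 (hi + lo + b + jq + 4) b₀, mul_comm]
        exact mul_le_mul_of_nonneg_right (inv_mono hΛ1 (by omega)) (hp0 _).le
      have e2 : (m : ℝ) * (Λ ^ b₀ * (1 / Λ ^ (hi + b₀ + lo + b + jq + 5))) ≤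
          m * (1 / Λ ^ (hi + lo + b + jq + 4)) := mul_le_mul_of_nonneg_left e1 hmm
      have e3 := mul_inv_le hΛ1 hΛ3 (by positivity) (le_refl (1 / Λ ^ (hi + lo + b + jq + 3 + 1)))
      have e4 : 0 ≤ (m : ℝ) * (1 / Λ ^ (hi + lo + b + jq + 3 + 1)) :=
        mul_nonneg hmm (hpos _).le
      have e5 : 1 / Λ ^ (hi + lo + b + jq + 3) ≤ 1 / Λ ^ (hi + (lo + b + jq + 2)) :=
        inv_mono hΛ1 (by omega)
      have e6 : 1 / Λ ^ (lo + b + jq + 2) * (1 / Λ ^ hi) = 1 / Λ ^ (hi + (lo + b + jq + 2)) := by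
        rw [pow_add Λ hi (lo + b + jq + 2), div_mul_div_comm, one_mul, mul_comm (Λ ^ (lo + b + jq + 2))]
      rw [e6]
      have e7 : hi + lo + b + jq + 3 + 1 = hi + lo + b + jq + 4 := by omega
      rw [e7] at e3 e4
      linarith)
  have hfin : co ≤ ρ / 4 * Pb B.p G - J * ρn := by
    have e1 : ρ / 4 * (ρ / 4) ≤ ρ / 4 * Pb B.p G := mul_le_mul_of_nonneg_left hGp (by linarith)
    have e2 : c₁ ^ 2 ≤ ρ ^ 2 := pow_le_pow_left₀ hc₁.le hρ 2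
    have e3 : co * 64 ≤ co * (64 * (m + J + 1)) := by
      have : 0 ≤ co * (64 * (m + J)) := by positivity
      linarith
    have e4 : ρ / 4 * (ρ / 4) = ρ ^ 2 / 16 := by ring
    rw [e4] at e1
    have e5 : 0 ≤ ρ ^ 2 := sq_nonneg ρ
    linarith
  let C1 : Ctx B ((κ + 4) * θ) := (ofFn hB (fun ω => ((B.b ω, B.th ω), G ω))
    (fun _ _ _ _ e => (Prod.ext_iff.mp (Prod.ext_iff.mp e).1).1)
    (fun _ _ _ _ e => (Prod.ext_iff.mp (Prod.ext_iff.mp e).1).2) hCi).mono hcost3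
  let Dp : Ctx B (2 * ((κ + 4) * θ)) := C1.gl (D.mono hcost) hB
  have hDp : Dp.q = glue B.p D.q B.pt (fun w => B.pt (D.pr w)) := rfl
  refine ⟨b, lo, hi, A₂, K₂, P, Dp.mono (hΨ'.trans hκθ), fun y => s y.2, sv, F, hb.trans hbm.le,
    hlo, by omega, hA₂, hK₂, hhi, hPQ, ⟨fun y π α => O.vec.1 _ _ _, fun y π hπ α hα hne =>
      O.vec.2 _ _ hπ _ hα hne⟩, hsv, O.deg, O.one, O.off, ?_⟩
  refine hfin.trans (hsp.trans ?_)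
  refine Pool.MIC.Pb_le_of_imp Dp.isLaw.nonneg fun x hx hh => ?_
  obtain ⟨k1, k2, k3⟩ := hh
  have hpt : B.pt x.1 = B.pt (D.pr x.2) := by
    have e1 : 0 < glue B.p D.q B.pt (fun w => B.pt (D.pr w)) x := hx
    exact ((glue_pos_iff p0 n0 x).1 e1).2.2
  rw [hG] at k1
  obtain ⟨g1, g2, g3, g4, -⟩ := k1
  rw [hE1] at k2
  obtain ⟨⟨q1, q2⟩, q3, q4⟩ := k2
  have hsv2 : ∀ π ∈ P, ∀ β, |s (D.x x.2) π β - sv (B.pt x.1) π β| ≤ 1 / Λ ^ (hi + 2) := by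
    intro π hπ β
    rw [hpt]
    exact q4 π hπ β
  have h3Λ : 3 * (1 / Λ ^ (hi + 2)) ≤ 1 / Λ ^ hi := by
    have e1 : 1 / Λ ^ (hi + 2) * Λ ^ 2 = 1 / Λ ^ hi := inv_mul_pow hΛ1 hi 2
    have e2 : (3 : ℝ) ≤ Λ ^ 2 := by nlinarith
    rw [← e1, mul_comm]
    exact mul_le_mul_of_nonneg_left e2 (hpos _).le
  refine ⟨⟨g1, fun π hπ => ⟨(q1.2 π hπ).1, fun k => ?_⟩⟩, g2, g3, fun π hπ β => ?_,
    fun π hπ β => ?_, fun l β => ?_⟩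
  · refine (B.ev_near g1 q1.1 hpt (fun α => O.vec.1 _ _ _) ((q1.2 π hπ).2 k)).trans ?_
    have e1 := hnum b hi (by omega)
    have e2 := hp1 b
    linarith
  · rw [← le_div_iff₀ (hp0 _)]
    exact (hsv2 π hπ β).trans (inv_mono hΛ1 (by omega))
  · rw [← le_div_iff₀ (hp0 _)]
    have e1 := hsv2 π hπ β
    have e2 := g4 π hπ β
    have e3 : s (D.x x.2) π β - (F (B.L x.1) ⌊B.th x.1 * Λ ^ A₂⌋ π β).eval (B.th x.1) =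
        (s (D.x x.2) π β - sv (B.pt x.1) π β) +
        (sv (B.pt x.1) π β - (F (B.L x.1) ⌊B.th x.1 * Λ ^ A₂⌋ π β).eval (B.th x.1)) := by ring
    have e4 : 2 / Λ ^ (hi + 2) = 2 * (1 / Λ ^ (hi + 2)) := by ring
    show |s (D.x x.2) π β - (F (B.L x.1) ⌊B.th x.1 * Λ ^ A₂⌋ π β).eval (B.th x.1)| ≤ 1 / Λ ^ hi
    rw [e3]
    refine (abs_add_le _ _).trans ?_
    rw [e4] at e2
    linarith
  · rw [← le_div_iff₀ (hp0 _)]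
    exact k3 l β

end

end Pool.TIE38
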